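import Pool.Agent.W186.AI.Spec

/-! Part FPC of project AI. -/

set_option autoImplicit false

namespace Pool.Agent.W402.AI.FPC

open Complex Filter Topology Metric Set
open Pool.Agent.W186.AI

theorem main (h : S_FPL) : S_FPC := by
  intro M A _ w f hM hw hf hG hw2
  have hP := fun x => h M (f x) (w x) hM (hG x) (hw2 x)
  have hk : ∀ k : ℕ, Continuous fun x => it (f x) (w x) k := by
    intro k
    induction k with
    | zero => exact continuous_const
    | succ k ih =>
      change Continuous fun x => w x * f x (it (f x) (w x) k)
      refine hw.mul ?_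
      have h1 : Continuous fun x : A => ((x, it (f x) (w x) k) : A × ℂ) := continuous_id.prodMk ih
      exact hf.comp_continuous h1 (fun x => ⟨mem_univ _, by
        rw [mem_ball_zero_iff]
        exact lt_of_le_of_lt ((hP x).2.2.2.1 k).1 (by norm_num)⟩)
  have hU : TendstoUniformly (fun (k : ℕ) x => it (f x) (w x) k) (fun x => fp (f x) (w x))
      atTop := by
    rw [Metric.tendstoUniformly_iff]
    intro ε hε
    have h2 : Tendsto (fun k : ℕ => ((1 / 2 : ℝ)) ^ k) atTop (𝓝 0) :=
      tendsto_pow_atTop_nhds_zero_of_lt_one (by norm_num) (by norm_num)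
    filter_upwards [h2.eventually (gt_mem_nhds hε)] with k hk x
    rw [dist_comm, dist_eq_norm]
    exact lt_of_le_of_lt ((hP x).2.2.2.1 k).2 hk
  exact hU.continuous (Frequently.of_forall hk)

end Pool.Agent.W402.AI.FPC
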